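import Pool.Agent.Q99.KN.Stm4

set_option autoImplicit false

/-! Project KN, job BW: `LC` in terms of volumes of ideal tetrahedra. -/

namespace Pool.Agent.Q239.KN

open Pool.Agent.Q99.KN
open Pool.Agent.W719.BS (LL)
open MeasureTheory Filter Topology

theorem bw_ii (a b : ℝ) :
    IntervalIntegrable (fun t : ℝ => Real.log |2 * Real.sin t|) volume a b := by
  have h : MeromorphicOn (fun t : ℝ => 2 * Real.sin t) (Set.uIcc a b) := fun t _ =>
    (analyticAt_const.mul (Real.analyticAt_sin)).meromorphicAt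
  have := h.intervalIntegrable_log
  simpa only [Function.comp_def, Real.log_abs] using this

theorem lbf_deriv {t : ℝ} (h : Real.sin t ≠ 0) :
    HasDerivAt lbf (-Real.log |2 * Real.sin t|) t := by
  have hc : ContinuousAt (fun t : ℝ => Real.log |2 * Real.sin t|) t := by
    apply ContinuousAt.log
    · fun_prop
    · exact abs_ne_zero.2 (mul_ne_zero two_ne_zero h)
  have hm : StronglyMeasurableAtFilter (fun t : ℝ => Real.log |2 * Real.sin t|) (𝓝 t) volume := by
    apply StronglyMeasurable.stronglyMeasurableAtFilter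
    apply Measurable.stronglyMeasurable
    fun_prop
  exact (intervalIntegral.integral_hasDerivAt_right (bw_ii 0 t) hm hc).neg

theorem lbf_pi_half : lbf (Real.pi / 2) = 0 := by
  unfold lbf
  have : ∫ t in (0:ℝ)..(Real.pi / 2), Real.log |2 * Real.sin t| =
      ∫ t in (0:ℝ)..(Real.pi / 2), (Real.log 2 + Real.log (Real.sin t)) := by
    apply intervalIntegral.integral_congr_ae
    refine Filter.Eventually.of_forall fun t ht => ?_
    rw [Set.uIoc_of_le (by positivity)] at ht
    have : 0 < Real.sin t := Real.sin_pos_of_pos_of_lt_pi ht.1 (by linarith [ht.2, Real.pi_pos])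
    rw [Real.log_abs, Real.log_mul two_ne_zero this.ne']
  have hi : IntervalIntegrable (fun t : ℝ => Real.log (Real.sin t)) volume 0 (Real.pi / 2) :=
    intervalIntegrable_log_sin
  rw [this, intervalIntegral.integral_add intervalIntegrable_const hi,
    integral_log_sin_zero_pi_div_two, intervalIntegral.integral_const]
  simp only [sub_zero, smul_eq_mul]
  ring

theorem lbf_dup {t : ℝ} (h0 : 0 < t) (h1 : t < Real.pi / 2) :
    lbf (2 * t) + 2 * lbf (Real.pi / 2 - t) = 2 * lbf t := by
  set F : ℝ → ℝ := fun t => lbf (2 * t) + 2 * lbf (Real.pi / 2 - t) - 2 * lbf t with hF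
  have hd : ∀ t ∈ Set.Ioo (0:ℝ) (Real.pi / 2), HasDerivAt F 0 t := by
    intro t ht
    have s1 : 0 < Real.sin t := Real.sin_pos_of_pos_of_lt_pi ht.1 (by linarith [ht.2, Real.pi_pos])
    have s2 : 0 < Real.cos t := Real.cos_pos_of_mem_Ioo ⟨by linarith [ht.1, Real.pi_pos], ht.2⟩
    have s3 : Real.sin (2 * t) ≠ 0 := by
      rw [Real.sin_two_mul]; positivity
    have s4 : Real.sin (Real.pi / 2 - t) ≠ 0 := by
      rw [Real.sin_pi_div_two_sub]; positivity
    have d1 : HasDerivAt (fun t : ℝ => lbf (2 * t)) (-Real.log |2 * Real.sin (2 * t)| * 2) t := by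
      have h := ((hasDerivAt_id t).const_mul (2:ℝ))
      rw [mul_one] at h
      exact HasDerivAt.comp (h₂ := lbf) t (lbf_deriv s3) h
    have d2 : HasDerivAt (fun t : ℝ => lbf (Real.pi / 2 - t))
        (-Real.log |2 * Real.sin (Real.pi / 2 - t)| * (-1)) t := by
      exact HasDerivAt.comp (h₂ := lbf) t (lbf_deriv s4) ((hasDerivAt_id t).const_sub (Real.pi / 2))
    have d3 := (d1.add (d2.const_mul 2)).sub ((lbf_deriv s1.ne').const_mul 2)
    refine d3.congr_deriv ?_
    rw [Real.sin_two_mul, Real.sin_pi_div_two_sub, Real.log_abs, Real.log_abs, Real.log_abs,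
      show 2 * (2 * Real.sin t * Real.cos t) = (2 * Real.sin t) * (2 * Real.cos t) by ring,
      Real.log_mul (by positivity) (by positivity)]
    ring
  have hc : F t = F (Real.pi / 4) := by
    refine isOpen_Ioo.is_const_of_deriv_eq_zero isPreconnected_Ioo
      (fun t ht => (hd t ht).differentiableAt.differentiableWithinAt) (fun t ht => (hd t ht).deriv)
      ⟨h0, h1⟩ ⟨by positivity, by linarith [Real.pi_pos]⟩
  have h4 : F (Real.pi / 4) = 0 := by
    simp only [hF]
    rw [show 2 * (Real.pi / 4) = Real.pi / 2 by ring, show Real.pi / 2 - Real.pi / 4 = Real.pi / 4 by ring,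
      lbf_pi_half]
    ring
  rw [h4] at hc
  simp only [hF] at hc
  linarith

theorem LL_lbf (a : ℝ) : Real.pi * LL a = -lbf (Real.pi * a) := by
  have h1 : LL a = ∫ t in (0:ℝ)..a, Real.log |2 * Real.sin (Real.pi * t)| := by
    unfold LL
    exact intervalIntegral.integral_congr fun t _ => (Real.log_abs _).symm
  rw [h1, intervalIntegral.integral_comp_mul_left (f := fun u => Real.log |2 * Real.sin u|)
    Real.pi_ne_zero, mul_zero]
  unfold lbf
  rw [neg_neg, smul_eq_mul, mul_inv_cancel_left₀ Real.pi_ne_zero]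

theorem arg_exp' {u : ℂ} (h1 : -Real.pi < u.im) (h2 : u.im ≤ Real.pi) : (Complex.exp u).arg = u.im := by
  rw [← Complex.log_im, Complex.log_exp h1 h2]

theorem two_sin (x : ℂ) : 2 * Complex.sin (Real.pi * x) =
    ((2 * (Real.sin (Real.pi * x.re) * Real.cosh (Real.pi * x.im)) : ℝ) : ℂ) +
    ((2 * (Real.cos (Real.pi * x.re) * Real.sinh (Real.pi * x.im)) : ℝ) : ℂ) * Complex.I := by
  have h : (Real.pi : ℂ) * x = ((Real.pi * x.re : ℝ) : ℂ) + ((Real.pi * x.im : ℝ) : ℂ) * Complex.I := by
    conv_lhs => rw [← Complex.re_add_im x]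
    push_cast; ring
  rw [h, Complex.sin_add_mul_I]
  push_cast
  ring

theorem re_ab (a b : ℝ) : ((a : ℂ) + (b : ℂ) * Complex.I).re = a := by simp

theorem im_ab (a b : ℝ) : ((a : ℂ) + (b : ℂ) * Complex.I).im = b := by simp

theorem two_sin_re (x : ℂ) : (2 * Complex.sin (Real.pi * x)).re =
    2 * (Real.sin (Real.pi * x.re) * Real.cosh (Real.pi * x.im)) := by
  rw [two_sin, re_ab]

theorem two_sin_im (x : ℂ) : (2 * Complex.sin (Real.pi * x)).im =
    2 * (Real.cos (Real.pi * x.re) * Real.sinh (Real.pi * x.im)) := by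
  rw [two_sin, im_ab]

theorem two_sin_re_pos {x : ℂ} (h0 : 0 < x.re) (h1 : x.re < 1) :
    0 < (2 * Complex.sin (Real.pi * x)).re := by
  rw [two_sin_re]
  have : 0 < Real.sin (Real.pi * x.re) :=
    Real.sin_pos_of_pos_of_lt_pi (by positivity) (by nlinarith [Real.pi_pos])
  have h2 := Real.cosh_pos (Real.pi * x.im)
  positivity

theorem bb_im_lt {x : ℂ} (h0 : 0 < x.re) (h1 : x.re < 1) : |(bb x).im| < Real.pi / 2 := by
  unfold bb
  rw [Complex.log_im, Complex.abs_arg_lt_pi_div_two_iff]
  exact Or.inl (two_sin_re_pos h0 h1)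

theorem exp_bb {x : ℂ} (h0 : 0 < x.re) (h1 : x.re < 1) :
    Complex.exp (bb x) = 2 * Complex.sin (Real.pi * x) := by
  unfold bb
  apply Complex.exp_log
  intro h
  have := two_sin_re_pos h0 h1
  rw [h] at this
  simp at this

theorem two_sin_exp (x : ℂ) : 2 * Complex.sin (Real.pi * x) =
    Complex.I * (Complex.exp (-(Real.pi * Complex.I * x)) - Complex.exp (Real.pi * Complex.I * x)) := by
  rw [Complex.sin]
  rw [show -(Real.pi * x) * Complex.I = -(Real.pi * Complex.I * x) by ring,
    show (Real.pi * x) * Complex.I = Real.pi * Complex.I * x by ring]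
  ring

theorem tet_eq {x : ℂ} (h0 : 0 < x.re) (h1 : x.re < 1 / 2) :
    tet (Complex.exp (2 * Real.pi * Complex.I * x)) = lbf (2 * (Real.pi * x.re)) +
      lbf (Real.pi / 2 - Real.pi * x.re - (bb x).im) + lbf (Real.pi / 2 - Real.pi * x.re + (bb x).im) := by
  have hb := abs_lt.1 (bb_im_lt h0 (by linarith : x.re < 1))
  have hp := Real.pi_pos
  have hpx : 0 < Real.pi * x.re := by positivity
  have hpx2 : Real.pi * x.re < Real.pi / 2 := by nlinarith
  have e1 : (2 * Real.pi * Complex.I * x).im = 2 * (Real.pi * x.re) := by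
    simp; ring
  have e2 : (-bb x - Real.pi * Complex.I * x + Real.pi / 2 * Complex.I).im =
      Real.pi / 2 - Real.pi * x.re - (bb x).im := by
    simp; ring
  have e3 : (bb x - Real.pi * Complex.I * x + Real.pi / 2 * Complex.I).im =
      Real.pi / 2 - Real.pi * x.re + (bb x).im := by
    simp; ring
  have hE := exp_bb h0 (by linarith : x.re < 1)
  have hz : Complex.exp (2 * Real.pi * Complex.I * x) =
      Complex.exp (Real.pi * Complex.I * x) * Complex.exp (Real.pi * Complex.I * x) := by
    rw [← Complex.exp_add]; congr 1; ring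
  have hn := Complex.exp_ne_zero (Real.pi * Complex.I * x)
  have hneg : Complex.exp (-(Real.pi * Complex.I * x)) = (Complex.exp (Real.pi * Complex.I * x))⁻¹ :=
    Complex.exp_neg _
  have hI := Complex.I_sq
  have hs0 : Complex.exp (bb x) ≠ 0 := Complex.exp_ne_zero _
  have hs : Complex.exp (bb x) * Complex.exp (Real.pi * Complex.I * x) =
      Complex.I * (1 - Complex.exp (2 * Real.pi * Complex.I * x)) := by
    rw [hE, two_sin_exp, hneg, hz]
    field_simp
  have hpi2 : Complex.exp (Real.pi / 2 * Complex.I) = Complex.I := by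
    rw [Complex.exp_pi_div_two_mul_I]
  have i2 : 1 / (1 - Complex.exp (2 * Real.pi * Complex.I * x)) =
      Complex.exp (-bb x - Real.pi * Complex.I * x + Real.pi / 2 * Complex.I) := by
    rw [Complex.exp_add, Complex.exp_sub, hpi2, Complex.exp_neg]
    have hne : 1 - Complex.exp (2 * Real.pi * Complex.I * x) ≠ 0 := by
      intro h
      rw [h, mul_zero] at hs
      exact (mul_ne_zero hs0 hn) hs
    field_simp
    linear_combination hs
  have i3 : (Complex.exp (2 * Real.pi * Complex.I * x) - 1) / Complex.exp (2 * Real.pi * Complex.I * x) =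
      Complex.exp (bb x - Real.pi * Complex.I * x + Real.pi / 2 * Complex.I) := by
    rw [Complex.exp_add, Complex.exp_sub, hpi2, div_eq_iff (Complex.exp_ne_zero _)]
    have : Complex.exp (bb x) / Complex.exp (Real.pi * Complex.I * x) * Complex.I *
        Complex.exp (2 * Real.pi * Complex.I * x) =
        Complex.I * (Complex.exp (bb x) * Complex.exp (Real.pi * Complex.I * x)) := by
      rw [hz]; field_simp
    rw [this, hs]
    linear_combination (-(1 - Complex.exp (2 * Real.pi * Complex.I * x))) * hI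
  unfold tet
  rw [i2, i3, arg_exp' (by rw [e1]; linarith) (by rw [e1]; linarith), e1,
    arg_exp' (by rw [e2]; linarith) (by rw [e2]; linarith), e2,
    arg_exp' (by rw [e3]; linarith) (by rw [e3]; linarith), e3]

/-- the law of sines -/
theorem sines {x : ℂ} (h0 : 0 < x.re) (h1 : x.re < 1 / 2) :
    Real.cos (Real.pi * x.re - (bb x).im) =
      Real.exp (2 * Real.pi * x.im) * Real.cos (Real.pi * x.re + (bb x).im) ∧
    0 < Real.cos (Real.pi * x.re + (bb x).im) := by
  have hr := two_sin_re_pos h0 (by linarith : x.re < 1)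
  set w := 2 * Complex.sin (Real.pi * x) with hw
  have hw0 : 0 < ‖w‖ := by
    rw [norm_pos_iff]
    rintro h
    rw [h] at hr
    simp at hr
  have hth : (bb x).im = w.arg := by unfold bb; rw [Complex.log_im]
  have c1 : ‖w‖ * Real.cos w.arg = w.re := Complex.norm_mul_cos_arg w
  have c2 : ‖w‖ * Real.sin w.arg = w.im := Complex.norm_mul_sin_arg w
  have k1 : w.re = 2 * (Real.sin (Real.pi * x.re) * Real.cosh (Real.pi * x.im)) := two_sin_re x
  have k2 : w.im = 2 * (Real.cos (Real.pi * x.re) * Real.sinh (Real.pi * x.im)) := two_sin_im x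
  rw [k1, Real.cosh_eq] at c1
  rw [k2, Real.sinh_eq] at c2
  have hp := Real.pi_pos
  have s1 : 0 < Real.sin (Real.pi * x.re) :=
    Real.sin_pos_of_pos_of_lt_pi (by positivity) (by nlinarith)
  have s2 : 0 < Real.cos (Real.pi * x.re) :=
    Real.cos_pos_of_mem_Ioo ⟨by nlinarith, by nlinarith⟩
  have m1 : ‖w‖ * Real.cos (Real.pi * x.re + (bb x).im) =
      2 * Real.sin (Real.pi * x.re) * Real.cos (Real.pi * x.re) * Real.exp (-(Real.pi * x.im)) := by
    rw [Real.cos_add, hth]
    linear_combination Real.cos (Real.pi * x.re) * c1 - Real.sin (Real.pi * x.re) * c2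
  have m2 : ‖w‖ * Real.cos (Real.pi * x.re - (bb x).im) =
      2 * Real.sin (Real.pi * x.re) * Real.cos (Real.pi * x.re) * Real.exp (Real.pi * x.im) := by
    rw [Real.cos_sub, hth]
    linear_combination Real.cos (Real.pi * x.re) * c1 + Real.sin (Real.pi * x.re) * c2
  constructor
  · apply mul_left_cancel₀ hw0.ne'
    rw [m2, mul_left_comm, m1]
    have : Real.exp (2 * Real.pi * x.im) * Real.exp (-(Real.pi * x.im)) = Real.exp (Real.pi * x.im) := by
      rw [← Real.exp_add]; congr 1; ring
    rw [← this]; ring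
  · have : 0 < ‖w‖ * Real.cos (Real.pi * x.re + (bb x).im) := by
      rw [m1]; positivity
    exact (pos_iff_pos_of_mul_pos this).1 hw0

/-- **job BW** -/
theorem task_BW : S_BW := by
  intro hL x h0 h1
  obtain ⟨hLC, -, hreal, hbb, -⟩ := hL
  have hp := Real.pi_pos
  set a := x.re with ha
  set y : ℝ → ℂ := fun s => a + s * Complex.I with hy
  have yre : ∀ s, (y s).re = a := fun s => by simp [hy]
  have yim : ∀ s, (y s).im = s := fun s => by simp [hy]
  have ySt : ∀ s, y s ∈ St := fun s => ⟨by rw [yre]; exact h0, by rw [yre]; linarith⟩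
  have yd : ∀ s : ℝ, HasDerivAt y Complex.I s := by
    intro s
    have h := ((Complex.ofRealCLM.hasDerivAt (x := s)).mul_const Complex.I).const_add (a : ℂ)
    have h' : Complex.ofRealCLM 1 * Complex.I = Complex.I := by simp
    rw [h'] at h
    exact h
  -- the derivative of the imaginary part of bb
  have dth : ∀ s : ℝ, ∃ t' : ℝ, HasDerivAt (fun s : ℝ => (bb (y s)).im) t' s := by
    intro s
    have h2 : HasDerivAt (fun s : ℝ => bb (y s)) (ct (y s) * Complex.I) s :=
      (hbb (y s) (ySt s)).comp_of_eq s (yd s) rfl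
    exact ⟨_, (Complex.imCLM.hasFDerivAt.comp_hasDerivAt s h2)⟩
  have dLC : ∀ s : ℝ, HasDerivAt (fun s : ℝ => (LC (y s)).re) (-(bb (y s)).im) s := by
    intro s
    have h2 : HasDerivAt (fun s : ℝ => LC (y s)) (bb (y s) * Complex.I) s :=
      (hLC (y s) (ySt s)).comp_of_eq s (yd s) rfl
    have h3 := (Complex.reCLM.hasFDerivAt.comp_hasDerivAt s h2)
    have h4 : Complex.reCLM (bb (y s) * Complex.I) = -(bb (y s)).im := by simp
    rw [h4] at h3
    exact h3
  set G : ℝ → ℝ := fun s => 2 * Real.pi * (LC (y s)).re + (lbf (2 * (Real.pi * a)) +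
    lbf (Real.pi / 2 - Real.pi * a - (bb (y s)).im) +
    lbf (Real.pi / 2 - Real.pi * a + (bb (y s)).im)) + 2 * Real.pi * (s * (bb (y s)).im) with hG
  have hGd : ∀ s, HasDerivAt G 0 s := by
    intro s
    obtain ⟨t', ht'⟩ := dth s
    obtain ⟨sn1, sn2⟩ := sines (x := y s) (by rw [yre]; exact h0) (by rw [yre]; exact h1)
    rw [yre, yim] at sn1
    rw [yre] at sn2
    have e1 : Real.sin (Real.pi / 2 - Real.pi * a - (bb (y s)).im) =
        Real.cos (Real.pi * a + (bb (y s)).im) := by
      rw [← Real.sin_pi_div_two_sub]; congr 1; ring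
    have e2 : Real.sin (Real.pi / 2 - Real.pi * a + (bb (y s)).im) =
        Real.cos (Real.pi * a - (bb (y s)).im) := by
      rw [← Real.sin_pi_div_two_sub]; congr 1; ring
    have n1 : Real.sin (Real.pi / 2 - Real.pi * a - (bb (y s)).im) ≠ 0 := by
      rw [e1]; exact sn2.ne'
    have n2 : Real.sin (Real.pi / 2 - Real.pi * a + (bb (y s)).im) ≠ 0 := by
      rw [e2, sn1]; positivity
    have d1 : HasDerivAt (fun s : ℝ => lbf (Real.pi / 2 - Real.pi * a - (bb (y s)).im))
        (-Real.log |2 * Real.sin (Real.pi / 2 - Real.pi * a - (bb (y s)).im)| * (-t')) s :=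
      HasDerivAt.comp (h₂ := lbf) s (lbf_deriv n1) (ht'.const_sub _)
    have d2 : HasDerivAt (fun s : ℝ => lbf (Real.pi / 2 - Real.pi * a + (bb (y s)).im))
        (-Real.log |2 * Real.sin (Real.pi / 2 - Real.pi * a + (bb (y s)).im)| * t') s :=
      HasDerivAt.comp (h₂ := lbf) s (lbf_deriv n2) (ht'.const_add _)
    have d3 := (((dLC s).const_mul (2 * Real.pi)).add (((hasDerivAt_const s
      (lbf (2 * (Real.pi * a)))).add d1).add d2)).add
      (((hasDerivAt_id s).mul ht').const_mul (2 * Real.pi))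
    refine d3.congr_deriv ?_
    rw [e1, e2, sn1, Real.log_abs, Real.log_abs,
      show 2 * (Real.exp (2 * Real.pi * s) * Real.cos (Real.pi * a + (bb (y s)).im)) =
        Real.exp (2 * Real.pi * s) * (2 * Real.cos (Real.pi * a + (bb (y s)).im)) by ring,
      Real.log_mul (Real.exp_pos _).ne' (by positivity), Real.log_exp]
    simp only [id]
    ring
  have hconst : G x.im = G 0 := by
    refine is_const_of_deriv_eq_zero (fun s => (hGd s).differentiableAt) (fun s => (hGd s).deriv) _ _
  have hyx : y x.im = x := by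
    simp only [hy]
    exact Complex.re_add_im x
  have hy0 : y 0 = (a : ℂ) := by simp [hy]
  have hbb0 : (bb (a : ℂ)).im = 0 := by
    unfold bb
    rw [Complex.log_im, Complex.arg_eq_zero_iff]
    have h3 := two_sin_im (a : ℂ)
    have h4 := two_sin_re_pos (x := (a : ℂ)) (by simpa using h0) (by simp; linarith)
    refine ⟨h4.le, ?_⟩
    rw [h3]; simp
  have h00 : G 0 = 0 := by
    simp only [hG]
    rw [hy0, hbb0, hreal a h0 (by linarith), Complex.ofReal_re]
    have h5 := LL_lbf a
    have h6 := lbf_dup (t := Real.pi * a) (by positivity) (by nlinarith)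
    rw [sub_zero, add_zero]
    linear_combination 2 * h5 + h6
  rw [h00] at hconst
  simp only [hG] at hconst
  rw [hyx] at hconst
  rw [tet_eq h0 h1]
  linear_combination hconst

end Pool.Agent.Q239.KN
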