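import Pool.Agent.Q99.KN.Stm4

set_option autoImplicit false

/-! Project KN, job VOL: the critical value as a sum of volumes. -/

namespace Pool.Agent.Q239.KN

open Finset
open Pool.Agent.Q99.KN

theorem two_re (z : ℂ) : (2 * z).re = 2 * z.re := by
  rw [Complex.mul_re]; norm_num

theorem two_im (z : ℂ) : (2 * z).im = 2 * z.im := by
  rw [Complex.mul_im]; norm_num

theorem hh_tet (hL : S_LC) (hB : S_BW) {ξ ζ : ℂ} (hξ : ‖ξ - 1 / 4‖ < 1 / 16) (hζ : ‖ζ‖ < 1 / 16) :
    2 * Real.pi * (HH ξ ζ).re = 2 * tet (Complex.exp (2 * Real.pi * Complex.I * ξ)) +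
      (tet (-Complex.exp (Real.pi * Complex.I * ζ) / Complex.exp (2 * Real.pi * Complex.I * ξ)) +
        tet (-1 / (Complex.exp (Real.pi * Complex.I * ζ) * Complex.exp (2 * Real.pi * Complex.I * ξ)))) -
      2 * Real.pi * (ξ.im * (h1 ξ ζ).im + ζ.im * (h2 ξ ζ).im) := by
  have r1 : |(ξ - 1 / 4).re| < 1 / 16 := (Complex.abs_re_le_norm _).trans_lt hξ
  have r2 : |ζ.re| < 1 / 16 := (Complex.abs_re_le_norm _).trans_lt hζ
  have r1' : (ξ - 1 / 4).re = ξ.re - 1 / 4 := by
    rw [Complex.sub_re]; norm_num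
  rw [r1'] at r1
  rw [abs_lt] at r1 r2
  have e1 : (1 / 2 - ζ / 2 - ξ).re = 1 / 2 - ζ.re / 2 - ξ.re := by
    rw [Complex.sub_re, Complex.sub_re, Complex.div_ofNat_re]; norm_num
  have e2 : (1 / 2 + ζ / 2 - ξ).re = 1 / 2 + ζ.re / 2 - ξ.re := by
    rw [Complex.sub_re, Complex.add_re, Complex.div_ofNat_re]; norm_num
  have e3 : (1 / 2 - ζ / 2 - ξ).im = - ζ.im / 2 - ξ.im := by
    rw [Complex.sub_im, Complex.sub_im, Complex.div_ofNat_im]; norm_num; ring
  have e4 : (1 / 2 + ζ / 2 - ξ).im = ζ.im / 2 - ξ.im := by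
    rw [Complex.sub_im, Complex.add_im, Complex.div_ofNat_im]; norm_num
  have b1 := hB hL ξ (by linarith) (by linarith)
  have b2 := hB hL (1 / 2 - ζ / 2 - ξ) (by rw [e1]; linarith) (by rw [e1]; linarith)
  have b3 := hB hL (1 / 2 + ζ / 2 - ξ) (by rw [e2]; linarith) (by rw [e2]; linarith)
  have x2 : Complex.exp (2 * Real.pi * Complex.I * (1 / 2 - ζ / 2 - ξ)) =
      -1 / (Complex.exp (Real.pi * Complex.I * ζ) * Complex.exp (2 * Real.pi * Complex.I * ξ)) := by
    have : 2 * Real.pi * Complex.I * (1 / 2 - ζ / 2 - ξ) =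
        Real.pi * Complex.I - (Real.pi * Complex.I * ζ + 2 * Real.pi * Complex.I * ξ) := by ring
    rw [this, Complex.exp_sub, Complex.exp_add, Complex.exp_pi_mul_I]
  have x3 : Complex.exp (2 * Real.pi * Complex.I * (1 / 2 + ζ / 2 - ξ)) =
      -Complex.exp (Real.pi * Complex.I * ζ) / Complex.exp (2 * Real.pi * Complex.I * ξ) := by
    have : 2 * Real.pi * Complex.I * (1 / 2 + ζ / 2 - ξ) =
        Real.pi * Complex.I + Real.pi * Complex.I * ζ - 2 * Real.pi * Complex.I * ξ := by ring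
    rw [this, Complex.exp_sub, Complex.exp_add, Complex.exp_pi_mul_I, neg_one_mul]
  rw [x2, e3] at b2
  rw [x3, e4] at b3
  have hre : (HH ξ ζ).re = -(2 * (LC ξ).re + (LC (1 / 2 - ζ / 2 - ξ)).re + (LC (1 / 2 + ζ / 2 - ξ)).re) := by
    unfold HH
    rw [Complex.neg_re, Complex.add_re, Complex.add_re, two_re]
  have him1 : (h1 ξ ζ).im = (bb (1 / 2 - ζ / 2 - ξ)).im + (bb (1 / 2 + ζ / 2 - ξ)).im - 2 * (bb ξ).im := by
    unfold h1
    rw [Complex.sub_im, Complex.add_im, two_im]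
  have him2 : (h2 ξ ζ).im = ((bb (1 / 2 - ζ / 2 - ξ)).im - (bb (1 / 2 + ζ / 2 - ξ)).im) / 2 := by
    unfold h2
    rw [Complex.div_ofNat_im, Complex.sub_im]
  rw [hre, him1, him2]
  linear_combination (-2) * b1 - b2 - b3

theorem quad_re (w : ℤ) (ζ : ℂ) : (Complex.I * Real.pi * w * ζ ^ 2 / 4 + Complex.I * Real.pi * ζ).re =
    -(ζ.im * (Complex.I * Real.pi * w * ζ / 2 + Complex.I * Real.pi).im) := by
  have h1 : (Complex.I * Real.pi * w * ζ ^ 2 / 4 + Complex.I * Real.pi * ζ) =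
      Complex.I * ((Real.pi * w / 4 : ℝ) * (ζ * ζ) + (Real.pi : ℝ) * ζ) := by push_cast; ring
  have h2 : (Complex.I * Real.pi * w * ζ / 2 + Complex.I * Real.pi) =
      Complex.I * ((Real.pi * w / 2 : ℝ) * ζ + (Real.pi : ℝ)) := by push_cast; ring
  rw [h1, h2]
  simp only [Complex.I_re, Complex.I_im, Complex.mul_re, Complex.mul_im, Complex.add_im, Complex.add_re,
    Complex.ofReal_re, Complex.ofReal_im]
  ring

/-- **job VOL** -/
theorem task_VOL : S_VOL := by
  intro hL hB k w ξ ζ hC hξ hζ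
  have hPh : (Ph w ξ ζ).re = -(∑ i, (ζ i).im * (Complex.I * Real.pi * w i * ζ i / 2 + Complex.I * Real.pi).im) +
      ∑ j : Fin k, ((HH (ξ j) (ζ j.castSucc)).re + (HH (ξ j) (ζ j.succ)).re) := by
    unfold Ph
    rw [Complex.add_re, Complex.re_sum, Complex.re_sum, ← Finset.sum_neg_distrib]
    congr 1
    · exact Finset.sum_congr rfl fun i _ => quad_re (w i) (ζ i)
  have hx : ∀ j : Fin k, (h1 (ξ j) (ζ j.castSucc)).im + (h1 (ξ j) (ζ j.succ)).im = 0 := by
    intro j
    have := congrArg Complex.im (hC.x j)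
    rwa [Complex.add_im, Complex.zero_im] at this
  have hz : ∑ i, (ζ i).im * (Complex.I * Real.pi * w i * ζ i / 2 + Complex.I * Real.pi).im +
      ∑ j : Fin k, ((ζ j.castSucc).im * (h2 (ξ j) (ζ j.castSucc)).im + (ζ j.succ).im * (h2 (ξ j) (ζ j.succ)).im) = 0 := by
    have h1 : ∀ i : Fin (k + 1), (ζ i).im * (Complex.I * Real.pi * w i * ζ i / 2 + Complex.I * Real.pi).im +
        ∑ j : Fin k, ((if j.castSucc = i then (ζ i).im * (h2 (ξ j) (ζ i)).im else 0) +
          (if j.succ = i then (ζ i).im * (h2 (ξ j) (ζ i)).im else 0)) = 0 := by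
      intro i
      have h2' := congrArg Complex.im (hC.z i)
      rw [Complex.add_im, Complex.im_sum, Complex.zero_im] at h2'
      have h3 : ∀ j : Fin k, ((if j.castSucc = i then h2 (ξ j) (ζ i) else 0) +
          (if j.succ = i then h2 (ξ j) (ζ i) else 0)).im =
          (if j.castSucc = i then (h2 (ξ j) (ζ i)).im else 0) + (if j.succ = i then (h2 (ξ j) (ζ i)).im else 0) := by
        intro j
        rw [Complex.add_im]
        congr 1 <;> split_ifs <;> simp
      simp only [h3] at h2'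
      have h4 : ∑ j : Fin k, ((if j.castSucc = i then (ζ i).im * (h2 (ξ j) (ζ i)).im else 0) +
          (if j.succ = i then (ζ i).im * (h2 (ξ j) (ζ i)).im else 0)) =
          (ζ i).im * ∑ j : Fin k, ((if j.castSucc = i then (h2 (ξ j) (ζ i)).im else 0) +
          (if j.succ = i then (h2 (ξ j) (ζ i)).im else 0)) := by
        rw [Finset.mul_sum]
        refine Finset.sum_congr rfl fun j _ => ?_
        split_ifs <;> ring
      rw [h4, ← mul_add, h2', mul_zero]
    have h2' := Finset.sum_congr rfl fun i (_ : i ∈ (Finset.univ : Finset (Fin (k + 1)))) => h1 i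
    have hcomm : ∑ i : Fin (k + 1), ∑ j : Fin k, ((if j.castSucc = i then (ζ i).im * (h2 (ξ j) (ζ i)).im else 0) +
          (if j.succ = i then (ζ i).im * (h2 (ξ j) (ζ i)).im else 0)) =
        ∑ j : Fin k, ∑ i : Fin (k + 1), ((if j.castSucc = i then (ζ i).im * (h2 (ξ j) (ζ i)).im else 0) +
          (if j.succ = i then (ζ i).im * (h2 (ξ j) (ζ i)).im else 0)) := Finset.sum_comm
    rw [Finset.sum_const_zero, Finset.sum_add_distrib, hcomm] at h2'
    rw [← h2']
    congr 1
    refine Finset.sum_congr rfl fun j _ => ?_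
    rw [Finset.sum_add_distrib, Finset.sum_ite_eq, Finset.sum_ite_eq, if_pos (Finset.mem_univ _),
      if_pos (Finset.mem_univ _)]
  have hmain : ∀ j : Fin k, 2 * Real.pi * ((HH (ξ j) (ζ j.castSucc)).re + (HH (ξ j) (ζ j.succ)).re) =
      (4 * tet (Complex.exp (2 * Real.pi * Complex.I * ξ j)) +
      (tet (-Complex.exp (Real.pi * Complex.I * ζ j.castSucc) /
          Complex.exp (2 * Real.pi * Complex.I * ξ j)) +
        tet (-1 / (Complex.exp (Real.pi * Complex.I * ζ j.castSucc) *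
          Complex.exp (2 * Real.pi * Complex.I * ξ j)))) +
      (tet (-Complex.exp (Real.pi * Complex.I * ζ j.succ) /
          Complex.exp (2 * Real.pi * Complex.I * ξ j)) +
        tet (-1 / (Complex.exp (Real.pi * Complex.I * ζ j.succ) *
          Complex.exp (2 * Real.pi * Complex.I * ξ j))))) -
      2 * Real.pi * ((ζ j.castSucc).im * (h2 (ξ j) (ζ j.castSucc)).im + (ζ j.succ).im * (h2 (ξ j) (ζ j.succ)).im) := by
    intro j
    have a1 := hh_tet hL hB (hξ j) (hζ j.castSucc)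
    have a2 := hh_tet hL hB (hξ j) (hζ j.succ)
    have a3 := hx j
    linear_combination a1 + a2 + (-(2 * Real.pi * (ξ j).im)) * a3
  rw [hPh, mul_add, Finset.mul_sum (s := (Finset.univ : Finset (Fin k))), Finset.sum_congr rfl fun j _ => hmain j,
    Finset.sum_sub_distrib, ← Finset.mul_sum]
  linear_combination (-(2 * Real.pi)) * hz

end Pool.Agent.Q239.KN
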