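import Pool.Agent.Q99.KN.Stm2
import Pool.Agent.Q151.FAL.G
import Pool.Agent.Q162.FAL.Z

/-!
# Twist regions without circles: the state sum (GG)
-/

set_option autoImplicit false

namespace Pool.Agent.Q239.KN

open Matrix Finset
open Pool.Agent.W715.VC (rt)
open Pool.Agent.W709.QAT (Piece run)
open Pool.Agent.Q191.TW (cs)
open Pool.Agent.Q191.LB (sg)
open Pool.Agent.Q191.TB (Gd Gd_cup Gd_cap Gd_twist Gd_id run_app)
open Pool.Agent.Q99.FW (Gd_app)
open Pool.Agent.Q99.FAL
open Pool.Agent.Q99.FAL.GG (hd ls facts Fct str_head str_last cor_nonneg cor_sum sum_ge sum_gt sum_eq')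
open Pool.Agent.Q99.KN

theorem Gd_elg {N : ℕ} (P : Gp N) (hP : P.R.Ok) (n : ℕ) (h : P.p + wd P.ty ≤ n) :
    Gd (N := N) (up P.ty n) n (run N (rt N) (elg P)) := by
  obtain ⟨T, p, R⟩ := P
  have hR := hP.gd
  cases T
  · exact hR p n h
  · change p + 2 ≤ n at h
    have e : elg (⟨.H, p, R⟩ : Gp N) = [Piece.cup (p + 2)] ++ (R.D (p + 1) ++ [Piece.cap p]) := rfl
    rw [e]
    exact Gd_app (p' := n + 2) (Gd_cup (p + 2) n (by omega)) (Gd_app (hR (p + 1) (n + 2) (by omega))
      (Gd_cap p n (by omega)))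
  · change p + 1 ≤ n at h
    have e : elg (⟨.YL, p, R⟩ : Gp N) = [Piece.cup (p + 1)] ++ R.D p := rfl
    rw [e]
    exact Gd_app (p' := n + 2) (Gd_cup (p + 1) n (by omega)) (hR p (n + 2) (by omega))
  · change p + 1 ≤ n at h
    have e : elg (⟨.YR, p, R⟩ : Gp N) = [Piece.cup p] ++ R.D (p + 1) := rfl
    rw [e]
    exact Gd_app (p' := n + 2) (Gd_cup p n (by omega)) (hR (p + 1) (n + 2) (by omega))
  · change p + 3 ≤ n at h
    obtain ⟨k, rfl⟩ : ∃ k, n = k + 2 := ⟨n - 2, by omega⟩
    have e : elg (⟨.LL, p, R⟩ : Gp N) = R.D p ++ [Piece.cap (p + 1)] := rfl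
    rw [e]
    exact Gd_app (hR p (k + 2) (by omega)) (Gd_cap (p + 1) k (by omega))
  · change p + 3 ≤ n at h
    obtain ⟨k, rfl⟩ : ∃ k, n = k + 2 := ⟨n - 2, by omega⟩
    have e : elg (⟨.LR, p, R⟩ : Gp N) = R.D (p + 1) ++ [Piece.cap p] := rfl
    rw [e]
    exact Gd_app (hR (p + 1) (k + 2) (by omega)) (Gd_cap p k (by omega))

theorem Gd_Dg {N : ℕ} : ∀ (D : List (Gp N)), (∀ P ∈ D, P.R.Ok) → ∀ (n : ℕ), Vag D n →
    Gd (N := N) 1 n (run N (rt N) (D.flatMap elg))
  | [], _, n, h => by
    have h1 : n = 1 := h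
    subst h1
    exact Gd_id 1
  | P :: D, hO, n, h => by
    rw [List.flatMap_cons]
    exact Gd_app (Gd_elg P (hO P (by simp)) n h.1)
      (Gd_Dg D (fun Q hQ => hO Q (by simp [hQ])) _ h.2)

/-- the state sum vanishes if an outer gap is positive -/
lemma SG_zero {N : ℕ} : ∀ (D : List (Gp N)) (n : ℕ), Vag D n → ∀ G : List ℤ, G.length = n + 1 →
    (∀ g ∈ G, 0 ≤ g) → (0 < hd G ∨ 0 < ls G) → SG D G = 0
  | [], n, hv, G, hl, hG, hp => by
    rw [SG, if_neg]
    rintro rfl
    simp [hd, ls] at hp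
  | P :: D, n, hv, G, hl, hG, hp => by
    rw [SG]
    refine Finset.sum_eq_zero fun x _ => ?_
    split_ifs with hc
    · have F := facts P.ty P.p n hv.1 (cor (zz x)) (cor_nonneg x) G hl hG
      rw [SG_zero D _ hv.2 _ F.len F.nn, mul_zero]
      have := F.hd
      have := F.ls
      rcases hp with hp | hp
      · left; linarith
      · right; linarith
    · rfl

/-- outer gaps may be moved to the base label -/
lemma outer (N : ℕ) (h : 0 < N) (hZ : ∀ (D : List (Gp N)), (∀ P ∈ D, P.R.Ok) →
    ∀ n : ℕ, Vag D n → ∀ (s : ℤ) (G : List ℤ), G.length = n + 1 → (∀ g ∈ G, 0 ≤ g) →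
    2 * G.sum < ((n : ℤ) - 1) * (N - 1) →
    run N (rt N) (D.flatMap elg) (UU N (str s G)) [⟨0, h⟩] = 0) (D : List (Gp N))
    (hO : ∀ P ∈ D, P.R.Ok) (n : ℕ)
    (hv : Vag D n) (s : ℤ) (G : List ℤ) (hl : G.length = n + 1) (h2 : 2 ≤ G.length)
    (hG : ∀ g ∈ G, 0 ≤ g) (hs : 2 * G.sum = ((n : ℤ) - 1) * (N - 1))
    (hp : 0 < hd G ∨ 0 < ls G) :
    run N (rt N) (D.flatMap elg) (UU N (str s G)) [⟨0, h⟩] = 0 := by
  rcases G with _ | ⟨a, _ | ⟨b, R⟩⟩
  · simp at h2
  · simp at h2
  rw [str_head]
  obtain ⟨M, c, hM⟩ : ∃ M c, b :: R = M ++ [c] := by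
    rcases List.eq_nil_or_concat (b :: R) with h' | ⟨M, c, h'⟩
    · simp at h'
    · exact ⟨M, c, by simpa using h'⟩
  rw [hM]
  have e1 : str (s - a) (0 :: (M ++ [c])) = str (s - a) (0 :: (M ++ [0])) := by
    have := str_last (0 :: M) (s - a) c 0
    simpa using this
  rw [e1]
  have ha := hG a (by simp)
  have hc : 0 ≤ c := hG c (by rw [hM]; simp)
  have hM' : ∀ g ∈ M, 0 ≤ g := fun g hg => hG g (by rw [hM]; simp [hg])
  have hla : hd (a :: b :: R) = a := by simp [hd]
  have hlc : ls (a :: b :: R) = c := by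
    have e2 : a :: (M ++ [c]) = (a :: M) ++ [c] := rfl
    rw [hM, e2]
    unfold ls
    rw [List.getLast?_concat]
    rfl
  rw [hla, hlc] at hp
  rw [hM] at hs hl
  refine hZ D hO n hv _ _ ?_ ?_ ?_
  · simp at hl ⊢; omega
  · intro g hg
    simp only [List.mem_cons, List.mem_append, List.not_mem_nil, or_false] at hg
    rcases hg with rfl | hg | rfl
    · exact le_rfl
    · exact hM' g hg
    · exact le_rfl
  · rw [← hs]
    simp only [List.sum_cons, List.sum_append, List.sum_nil]
    rcases hp with hp | hp <;> linarith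

/-- **GG** -/
theorem task_GG : S_GG := by
  intro hTR hZ' N h D
  have hZ := hZ' hTR N h
  induction D with
  | nil =>
    intro hO n hv
    have hn : n = 1 := hv
    subst hn
    refine ⟨1, by simp, fun s G hl hG h0 h1 hs => ?_⟩
    rcases G with _ | ⟨a, _ | ⟨b, _ | ⟨c, R⟩⟩⟩
    · simp at hl
    · simp at hl
    · simp at h0 h1
      subst h0 h1
      simp [SG, run, UU, uu, str, ph, cs, nu]
    · simp at hl
  | cons P D ih =>
    intro hO n hv
    have hO' : ∀ Q ∈ D, Q.R.Ok := fun Q hQ => hO Q (by simp [hQ])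
    obtain ⟨θ', hθ', IH⟩ := ih hO' (up P.ty n) hv.2
    have hR := hO P (by simp)
    obtain ⟨T, p, R⟩ := P
    obtain ⟨hv1, hv2⟩ := hv
    simp only at hv1 hv2 IH hR
    obtain ⟨θ, hθ, H⟩ := hTR T N h R hR p n hv1
    refine ⟨θ * θ', by rw [norm_mul, hθ, hθ', one_mul], fun s G hl hG h0 h1 hs => ?_⟩
    obtain ⟨ε, hε, hrun⟩ := H s G hl hG
    have hGd := Gd_Dg D hO' _ hv2
    rw [List.flatMap_cons, run_app, SG]
    have e1 := hGd.loc (run N (rt N) (elg ⟨T, p, R⟩) (UU N (str s G)))
      (fun l => θ * N ^ ex T * ∑ x : Fin 6 → Fin N, if n1 (zz x) + n2 (zz x) = (N : ℤ) - 1 ∧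
        (∀ c ∈ cls T p (cor (zz x)) G, (N : ℤ) ∣ c + 1) then
          R.wt (zz x) * ε x * UU N (str s (stp T p (cor (zz x)) G)) l else 0)
      [⟨0, h⟩] rfl (fun l' hl' _ => hrun l' hl')
    rw [e1, hGd.smul (θ * N ^ ex T) _ _ rfl, hGd.sum _ _ _ rfl]
    rw [List.map_cons, List.sum_cons, pow_add]
    have key : ∀ x : Fin 6 → Fin N, run N (rt N) (D.flatMap elg) (fun l =>
        if n1 (zz x) + n2 (zz x) = (N : ℤ) - 1 ∧
        (∀ c ∈ cls T p (cor (zz x)) G, (N : ℤ) ∣ c + 1) then
          R.wt (zz x) * ε x * UU N (str s (stp T p (cor (zz x)) G)) l else 0) [⟨0, h⟩] =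
        θ' * (N : ℂ) ^ (D.map fun P => ex P.ty).sum * nu N s *
          (if n1 (zz x) + n2 (zz x) = (N : ℤ) - 1 ∧
            (∀ c ∈ cls T p (cor (zz x)) G, c = N - 1) then
          R.wt (zz x) * SG D (stp T p (cor (zz x)) G) else 0) := by
      intro x
      have F := facts T p n hv1 (cor (zz x)) (cor_nonneg x) G hl hG
      by_cases hx : n1 (zz x) + n2 (zz x) = (N : ℤ) - 1
      swap
      · have h7 : ∀ l : List (Fin N), (if n1 (zz x) + n2 (zz x) = (N : ℤ) - 1 ∧
            (∀ c ∈ cls T p (cor (zz x)) G, (N : ℤ) ∣ c + 1) then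
            R.wt (zz x) * ε x * UU N (str s (stp T p (cor (zz x)) G)) l else 0) = 0 :=
          fun l => if_neg (fun h => hx h.1)
        simp only [h7]
        rw [if_neg (fun h => hx h.1), mul_zero]
        exact hGd.zero _ rfl
      by_cases hc : ∀ c ∈ cls T p (cor (zz x)) G, c = (N : ℤ) - 1
      · have hc' : ∀ c ∈ cls T p (cor (zz x)) G, (N : ℤ) ∣ c + 1 := by
          intro c hcm
          rw [hc c hcm]
          simp
        have h7 : ∀ l : List (Fin N), (if n1 (zz x) + n2 (zz x) = (N : ℤ) - 1 ∧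
            (∀ c ∈ cls T p (cor (zz x)) G, (N : ℤ) ∣ c + 1) then
            R.wt (zz x) * ε x * UU N (str s (stp T p (cor (zz x)) G)) l else 0) =
            R.wt (zz x) * UU N (str s (stp T p (cor (zz x)) G)) l := fun l => by
          rw [if_pos ⟨hx, hc'⟩, hε x hc, mul_one]
        simp only [h7]
        rw [if_pos ⟨hx, hc⟩, hGd.smul _ _ _ rfl]
        have hsum : 2 * (stp T p (cor (zz x)) G).sum = (((up T n : ℕ) : ℤ) - 1) * (N - 1) := by
          have a1 := F.sum
          have a2 := sum_eq' hc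
          have a3 : (2 : ℤ) * ((cls T p (cor (zz x)) G).length : ℤ) + (up T n : ℕ) = n + 2 := by
            exact_mod_cast F.clen
          rw [cor_sum, hx, a2] at a1
          linear_combination 2 * a1 + hs - ((N : ℤ) - 1) * a3
        have hh0 : 0 ≤ hd (stp T p (cor (zz x)) G) := by
          have := F.hd
          have : hd G = 0 := by simp [hd, h0]
          linarith
        have hl0 : 0 ≤ ls (stp T p (cor (zz x)) G) := by
          have := F.ls
          have : ls G = 0 := by simp [ls, h1]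
          linarith
        by_cases hpos : 0 < hd (stp T p (cor (zz x)) G) ∨ 0 < ls (stp T p (cor (zz x)) G)
        · rw [SG_zero D _ hv2 _ F.len F.nn hpos]
          have hlen : 2 ≤ (stp T p (cor (zz x)) G).length := by
            rw [F.len]
            cases T <;> simp only [up, wd] at hv1 ⊢ <;> omega
          rw [outer N h hZ D hO' _ hv2 s _ F.len hlen F.nn hsum hpos, mul_zero, mul_zero]
        · push Not at hpos
          have hne : stp T p (cor (zz x)) G ≠ [] := by
            intro h'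
            have := F.len
            rw [h'] at this
            simp at this
          have r1 : (stp T p (cor (zz x)) G).head? = some 0 := by
            have e : hd (stp T p (cor (zz x)) G) = 0 := le_antisymm hpos.1 hh0
            unfold hd at e
            rcases h' : (stp T p (cor (zz x)) G).head? with _ | y
            · rw [List.head?_eq_none_iff] at h'
              exact absurd h' hne
            · rw [h'] at e; simp at e; rw [e]
          have r2 : (stp T p (cor (zz x)) G).getLast? = some 0 := by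
            have e : ls (stp T p (cor (zz x)) G) = 0 := le_antisymm hpos.2 hl0
            unfold ls at e
            rcases h' : (stp T p (cor (zz x)) G).getLast? with _ | y
            · rw [List.getLast?_eq_none_iff] at h'
              exact absurd h' hne
            · rw [h'] at e; simp at e; rw [e]
          rw [IH s _ F.len F.nn r1 r2 hsum]
          ring
      · have hneg : ¬ (n1 (zz x) + n2 (zz x) = (N : ℤ) - 1 ∧
            (∀ c ∈ cls T p (cor (zz x)) G, c = (N : ℤ) - 1)) := fun h => hc h.2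
        rw [if_neg hneg, mul_zero]
        by_cases hc' : ∀ c ∈ cls T p (cor (zz x)) G, (N : ℤ) ∣ c + 1
        · have h7 : ∀ l : List (Fin N), (if n1 (zz x) + n2 (zz x) = (N : ℤ) - 1 ∧
              (∀ c ∈ cls T p (cor (zz x)) G, (N : ℤ) ∣ c + 1) then
              R.wt (zz x) * ε x * UU N (str s (stp T p (cor (zz x)) G)) l else 0) =
              R.wt (zz x) * ε x * UU N (str s (stp T p (cor (zz x)) G)) l := fun l =>
            if_pos ⟨hx, hc'⟩
          simp only [h7]
          rw [hGd.smul _ _ _ rfl]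
          have hge : ∀ c ∈ cls T p (cor (zz x)) G, (N : ℤ) - 1 ≤ c := by
            intro c hcm
            have h3 := Int.le_of_dvd (by have := F.cn c hcm; omega) (hc' c hcm)
            omega
          push Not at hc
          have hgt := sum_gt hge hc
          have hsum : 2 * (stp T p (cor (zz x)) G).sum < (((up T n : ℕ) : ℤ) - 1) * (N - 1) := by
            have a1 := F.sum
            have a3 : (2 : ℤ) * ((cls T p (cor (zz x)) G).length : ℤ) + (up T n : ℕ) = n + 2 := by
              exact_mod_cast F.clen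
            rw [cor_sum, hx] at a1
            have a4 : (((up T n : ℕ) : ℤ) - 1) * ((N : ℤ) - 1) =
                2 * (stp T p (cor (zz x)) G).sum + 2 * ((cls T p (cor (zz x)) G).sum -
                  ((cls T p (cor (zz x)) G).length : ℤ) * ((N : ℤ) - 1)) := by
              linear_combination ((N : ℤ) - 1) * a3 - 2 * a1 - hs
            rw [a4]
            linarith
          rw [hZ D hO' _ hv2 s _ F.len F.nn hsum, mul_zero]
        · have h7 : ∀ l : List (Fin N), (if n1 (zz x) + n2 (zz x) = (N : ℤ) - 1 ∧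
              (∀ c ∈ cls T p (cor (zz x)) G, (N : ℤ) ∣ c + 1) then
              R.wt (zz x) * ε x * UU N (str s (stp T p (cor (zz x)) G)) l else 0) = 0 := fun l =>
            if_neg (fun h => hc' h.2)
          simp only [h7]
          exact hGd.zero _ rfl
    rw [Finset.sum_congr rfl fun x _ => key x, ← Finset.mul_sum]
    simp only
    ring

end Pool.Agent.Q239.KN
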