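import Pool.Agent.Q239.KN.GG
import Pool.Agent.Q162.FAL.J

/-!
# Twist regions without circles: the Kashaev invariant as a state sum (JG)
-/

set_option autoImplicit false

namespace Pool.Agent.Q239.KN

open Matrix Finset
open Pool.Agent.W715.VC (rt)
open Pool.Agent.W709.QAT (Piece run)
open Pool.Agent.Q191.TW (cs cs_add cs_zero cs_period)
open Pool.Agent.Q191.TB (Gd)
open Pool.Agent.Q99.FAL
open Pool.Agent.Q162.FAL (up_cn cn orth)
open Pool.Agent.Q99.KN

/-- the sum of the exponents -/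
lemma exg_sum {N : ℕ} : ∀ (D : List (Gp N)) (n : ℕ), Vag D n →
    2 * ((D.map fun P => ex P.ty).sum : ℤ) = 2 * D.length + n - 1
  | [], n, h => by
    have h1 : n = 1 := h
    subst h1
    simp
  | P :: D, n, h => by
    have ih := exg_sum D _ h.2
    have h1 := up_cn P.ty P.p n h.1
    rw [List.map_cons, List.sum_cons, List.length_cons]
    have h2 : (ex P.ty : ℤ) = cn P.ty := by
      cases P.ty <;> rfl
    push_cast
    push_cast at ih
    rw [h1] at ih
    rw [h2]
    linarith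

/-- **JG** -/
theorem task_JG : S_JG := by
  intro hG hTR hZ N h D hO hD
  obtain ⟨θ, hθ1, hθ⟩ := hG hTR hZ N h D hO 1 hD
  refine ⟨θ, hθ1, ?_⟩
  have hGd := Gd_Dg (N := N) D hO 1 hD
  have hN : (N : ℂ) ≠ 0 := by exact_mod_cast h.ne'
  have hrt : rt N ≠ 0 := Complex.exp_ne_zero _
  have hnu : ∀ s : ℤ, nu N (-s) * nu N s = 1 := by
    intro s
    unfold nu
    rw [← zpow_add₀ (by simp [hrt]), neg_add_cancel, zpow_zero]
  have e1 := hGd.loc (fun l => if l = [⟨0, h⟩] then (1 : ℂ) else 0)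
    (fun l => (N : ℂ)⁻¹ * ∑ s ∈ range N, nu N (-(s : ℤ)) * UU N (str (s : ℤ) [0, 0]) l) [⟨0, h⟩] rfl ?_
  · rw [e1, hGd.smul _ _ _ rfl, hGd.sum _ _ _ rfl]
    have e2 : ∀ s ∈ range N, run N (rt N) (D.flatMap elg)
        (fun l => nu N (-(s : ℤ)) * UU N (str (s : ℤ) [0, 0]) l) [⟨0, h⟩] =
        θ * N ^ (D.map fun P => ex P.ty).sum * SG D [0, 0] := by
      intro s _
      rw [hGd.smul _ _ _ rfl, hθ (s : ℤ) [0, 0] rfl (by simp) rfl rfl (by simp)]
      have := hnu (s : ℤ)
      linear_combination (θ * N ^ (D.map fun P => ex P.ty).sum * SG D [0, 0]) * this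
    rw [Finset.sum_congr rfl e2, Finset.sum_const, Finset.card_range, nsmul_eq_mul]
    have e3 : (D.map fun P => ex P.ty).sum = D.length := by
      have h8 := exg_sum D 1 hD
      omega
    rw [e3]
    field_simp
  · intro l hl _
    obtain ⟨x, rfl⟩ := List.length_eq_one_iff.1 hl
    have e4 : ∀ s : ℕ, nu N (-(s : ℤ)) * UU N (str (s : ℤ) [0, 0]) [x] = ph N 0 (s : ℤ) (x : ℕ) := by
      intro s
      have h5 : str (s : ℤ) [0, 0] = [(s : ℤ)] := by simp [str]
      rw [h5]
      unfold UU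
      simp only [List.sum_cons, List.sum_nil, add_zero, uu, mul_one]
      rw [← mul_assoc, hnu, one_mul]
    simp only [e4]
    have e5 : ∀ s : ℕ, ph N 0 (s : ℤ) ((x : ℕ) : ℤ) = cs N (-((((x : ℕ) : ℤ) : ℝ) ^ 2 / 2)) *
        cs N (-(2 * ((s : ℤ) : ℝ) * (((x : ℕ) : ℤ) : ℝ))) := by
      intro s
      rw [← cs_add]
      unfold ph
      congr 1
      push_cast
      ring
    simp only [e5]
    rw [← Finset.mul_sum, orth N h x x.2]
    by_cases hx : (x : ℕ) = 0
    · have hx' : x = ⟨0, h⟩ := Fin.ext hx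
      rw [if_pos hx, hx', if_pos rfl]
      simp [cs_zero, hN]
    · have hx' : x ≠ ⟨0, h⟩ := fun h' => hx (by rw [h'])
      rw [if_neg hx, mul_zero, mul_zero, if_neg]
      intro h'
      exact hx' (by simpa using h')

end Pool.Agent.Q239.KN
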