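import Pool.Agent.Q99.KN.Stm4

set_option autoImplicit false

/-! Project KN, job LAP: Laplace's method. -/

namespace Pool.Agent.Q239.KN

open Finset Filter Topology MeasureTheory
open Pool.Agent.Q99.KN

/-- **job LAP** -/
theorem task_LAP : S_LAP := by
  intro ι _ κ C hκ F q hmeas hbd hlim
  classical
  have hint : Integrable (fun u : ι → ℝ => C * Real.exp (-(κ * ∑ i, u i ^ 2))) := by
    have h1 : Integrable (fun u : ι → ℝ => ∏ i, Real.exp (-κ * u i ^ 2)) := by
      have := Integrable.fintype_prod (μ := fun _ : ι => (volume : Measure ℝ))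
        (f := fun _ : ι => fun x : ℝ => Real.exp (-κ * x ^ 2)) (fun _ => integrable_exp_neg_mul_sq hκ)
      simpa [volume_pi] using this
    refine (h1.const_mul C).congr (Eventually.of_forall fun u => ?_)
    simp only
    rw [← Real.exp_sum, Finset.mul_sum, ← Finset.sum_neg_distrib]
    simp only [neg_mul]
  have hmain : Tendsto (fun N : ℕ => ∫ u : ι → ℝ, F N (fun i => u i / √N)) atTop (𝓝 (∫ u, q u)) := by
    refine tendsto_integral_filter_of_dominated_convergence
      (fun u : ι → ℝ => C * Real.exp (-(κ * ∑ i, u i ^ 2))) ?_ ?_ hint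
      (Eventually.of_forall hlim)
    · filter_upwards [hmeas, eventually_ge_atTop 1] with N hN hN1
      have hs : (√(N:ℝ))⁻¹ ≠ 0 := by
        have : (0:ℝ) < N := by exact_mod_cast hN1
        positivity
      have hq : Measure.QuasiMeasurePreserving (fun u : ι → ℝ => (√(N:ℝ))⁻¹ • u) volume volume := by
        refine ⟨measurable_const_smul _, ?_⟩
        rw [Measure.map_addHaar_smul volume hs]
        exact Measure.smul_absolutelyContinuous
      have := hN.comp_quasiMeasurePreserving hq
      refine this.congr (Eventually.of_forall fun u => ?_)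
      simp only [Function.comp_apply]
      congr 1
      funext i
      simp only [Pi.smul_apply, smul_eq_mul]
      rw [div_eq_inv_mul]
    · filter_upwards [hbd, eventually_ge_atTop 1] with N hN hN1
      refine Eventually.of_forall fun u => ?_
      have hp : (0:ℝ) < N := by exact_mod_cast hN1
      refine (hN _).trans (le_of_eq ?_)
      congr 3
      have : ∑ i, (u i / √(N:ℝ)) ^ 2 = (∑ i, u i ^ 2) / N := by
        rw [Finset.sum_div]
        refine Finset.sum_congr rfl fun i _ => ?_
        rw [div_pow, Real.sq_sqrt hp.le]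
      rw [this]
      field_simp
  refine hmain.congr' ?_
  filter_upwards [eventually_ge_atTop 1] with N hN1
  have hp : (0:ℝ) < N := by exact_mod_cast hN1
  have h1 := Measure.integral_comp_smul (volume : Measure (ι → ℝ)) (F N) (√(N:ℝ))⁻¹
  have h2 : (fun u : ι → ℝ => F N ((√(N:ℝ))⁻¹ • u)) = fun u : ι → ℝ => F N (fun i => u i / √N) := by
    funext u
    congr 1
    funext i
    simp only [Pi.smul_apply, smul_eq_mul]
    rw [div_eq_inv_mul]
  rw [h2] at h1
  rw [h1, Module.finrank_fintype_fun_eq_card, abs_of_nonneg (by positivity), inv_pow, inv_inv,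
    Complex.real_smul, Complex.ofReal_pow]

end Pool.Agent.Q239.KN
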