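import Pool.Agent.Q99.KN.Stm2
import Pool.Agent.Q246.FAL.REG

/-!
# Twist regions without circles: crossings as a region (TO)
-/

set_option autoImplicit false

namespace Pool.Agent.Q239.KN

open Matrix Finset
open Pool.Agent.W715.VC (rt)
open Pool.Agent.W709.QAT (Piece run)
open Pool.Agent.Q191.TW (cs)
open Pool.Agent.Q191.LB (sg cx)
open Pool.Agent.Q191.TB (Gd)
open Pool.Agent.Q99.FW (Kg)
open Pool.Agent.Q99.FAL
open Pool.Agent.Q246.FAL (UU_two nu_add)
open Pool.Agent.Q99.KN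

/-- sums over the six-tuples with two vanishing entries -/
lemma sum_six {N : ℕ} (hN : 0 < N) (Q : (Fin 6 → ℤ) → ℂ)
    (hQ : ∀ y, Q y ≠ 0 → y 4 = 0 ∧ y 5 = 0 ∧ n1 y + n2 y = N - 1) :
    ∑ x : Fin 6 → Fin N, Q (zz x) = ∑ A ∈ range N, ∑ β ∈ range N, ∑ C ∈ range N,
      if A + β + C < N then Q ![(A : ℤ), β, N - 1 - A - β - C, C, 0, 0] else 0 := by
  classical
  have e0 : ∑ A ∈ range N, ∑ β ∈ range N, ∑ C ∈ range N,
      (if A + β + C < N then Q ![(A : ℤ), β, N - 1 - A - β - C, C, 0, 0] else 0) =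
      ∑ t ∈ (range N ×ˢ (range N ×ˢ range N)).filter (fun t => t.1 + t.2.1 + t.2.2 < N),
        Q ![(t.1 : ℤ), t.2.1, N - 1 - t.1 - t.2.1 - t.2.2, t.2.2, 0, 0] := by
    rw [Finset.sum_filter, Finset.sum_product]
    refine Finset.sum_congr rfl fun A _ => ?_
    rw [Finset.sum_product]
  rw [e0]
  symm
  let e : ℕ × ℕ × ℕ → Fin 6 → Fin N := fun t i =>
    ⟨(![t.1, t.2.1, N - 1 - t.1 - t.2.1 - t.2.2, t.2.2, 0, 0] : Fin 6 → ℕ) i % N,
      Nat.mod_lt _ hN⟩
  have he : ∀ t ∈ (range N ×ˢ (range N ×ˢ range N)).filter (fun t => t.1 + t.2.1 + t.2.2 < N),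
      zz (e t) = ![(t.1 : ℤ), t.2.1, N - 1 - t.1 - t.2.1 - t.2.2, t.2.2, 0, 0] := by
    rintro ⟨A, β, C⟩ ht
    simp only [Finset.mem_filter, Finset.mem_product, Finset.mem_range] at ht
    obtain ⟨⟨h1, h2, h3⟩, h4⟩ := ht
    have m1 : A % N = A := Nat.mod_eq_of_lt h1
    have m2 : β % N = β := Nat.mod_eq_of_lt h2
    have m3 : C % N = C := Nat.mod_eq_of_lt h3
    have m4 : (N - 1 - A - β - C) % N = N - 1 - A - β - C := Nat.mod_eq_of_lt (by omega)
    funext i
    fin_cases i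
    · change ((A % N : ℕ) : ℤ) = A
      rw [m1]
    · change ((β % N : ℕ) : ℤ) = β
      rw [m2]
    · change (((N - 1 - A - β - C) % N : ℕ) : ℤ) = N - 1 - A - β - C
      rw [m4]
      omega
    · change ((C % N : ℕ) : ℤ) = C
      rw [m3]
    · change ((0 % N : ℕ) : ℤ) = 0
      rw [Nat.zero_mod]
      rfl
    · change ((0 % N : ℕ) : ℤ) = 0
      rw [Nat.zero_mod]
      rfl
  refine Finset.sum_of_injOn e ?_ (fun _ _ => by simp) ?_ ?_
  · intro s hs t ht hst
    have h1 := he s hs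
    have h2 := he t ht
    rw [hst, h2] at h1
    have a0 := congrFun h1 0
    have a1 := congrFun h1 1
    have a3 := congrFun h1 3
    obtain ⟨A, β, C⟩ := s
    obtain ⟨A', β', C'⟩ := t
    have a0' : (A' : ℤ) = A := a0
    have a1' : (β' : ℤ) = β := a1
    have a3' : (C' : ℤ) = C := a3
    have b0 : A' = A := by exact_mod_cast a0'
    have b1 : β' = β := by exact_mod_cast a1'
    have b3 : C' = C := by exact_mod_cast a3'
    rw [b0, b1, b3]
  · intro x _ hx
    by_contra h0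
    obtain ⟨h4, h5, hs⟩ := hQ _ h0
    apply hx
    have g4 : (x 4 : ℕ) = 0 := by
      have : ((x 4 : ℕ) : ℤ) = 0 := h4
      exact_mod_cast this
    have g5 : (x 5 : ℕ) = 0 := by
      have : ((x 5 : ℕ) : ℤ) = 0 := h5
      exact_mod_cast this
    have gs : (x 0 : ℕ) + (x 1 : ℕ) + (x 2 : ℕ) + (x 3 : ℕ) + 1 = N := by
      have : (((x 0 : ℕ) : ℤ) + ((x 1 : ℕ) : ℤ) + ((x 2 : ℕ) : ℤ)) +
        (((x 3 : ℕ) : ℤ) + ((x 4 : ℕ) : ℤ) + ((x 5 : ℕ) : ℤ)) = N - 1 := hs
      rw [g4, g5] at this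
      omega
    have hm : ((x 0 : ℕ), (x 1 : ℕ), (x 3 : ℕ)) ∈ (range N ×ˢ (range N ×ˢ range N)).filter
        (fun t => t.1 + t.2.1 + t.2.2 < N) := by
      simp only [Finset.mem_filter, Finset.mem_product, Finset.mem_range]
      exact ⟨⟨(x 0).2, (x 1).2, (x 3).2⟩, by omega⟩
    refine ⟨((x 0 : ℕ), (x 1 : ℕ), (x 3 : ℕ)), hm, ?_⟩
    funext i
    apply Fin.ext
    fin_cases i
    · change (x 0 : ℕ) % N = x 0
      exact Nat.mod_eq_of_lt (x 0).2
    · change (x 1 : ℕ) % N = x 1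
      exact Nat.mod_eq_of_lt (x 1).2
    · change (N - 1 - (x 0 : ℕ) - (x 1 : ℕ) - (x 3 : ℕ)) % N = x 2
      rw [Nat.mod_eq_of_lt (by omega)]
      omega
    · change (x 3 : ℕ) % N = x 3
      exact Nat.mod_eq_of_lt (x 3).2
    · change 0 % N = (x 4 : ℕ)
      rw [Nat.zero_mod, g4]
    · change 0 % N = (x 5 : ℕ)
      rw [Nat.zero_mod, g5]
  · intro t ht
    rw [he t ht]

/-- the number of a tuple -/
lemma n12 {N : ℕ} (A β C : ℤ) : n1 ![A, β, (N : ℤ) - 1 - A - β - C, C, 0, 0] +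
    n2 ![A, β, (N : ℤ) - 1 - A - β - C, C, 0, 0] = N - 1 := by
  change (A + β + ((N : ℤ) - 1 - A - β - C)) + (C + 0 + 0) = N - 1
  ring

lemma cor_vec (A β γ C : ℤ) : cor ![A, β, γ, C, 0, 0] = ![A, β, C, γ] := by
  funext i
  fin_cases i
  · rfl
  · change β + 0 = β
    ring
  · rfl
  · change γ + 0 = γ
    ring

lemma wt_vec {N : ℕ} (σ : Bool) (m : ℕ) (A β C : ℕ) (γ : ℤ) :
    (tw N σ m).wt ![(A : ℤ), β, γ, C, 0, 0] = Fk N (sg σ * m) A β C / Real.pi := by
  change (if (0 : ℤ) = 0 ∧ (0 : ℤ) = 0 then Fk N (sg σ * m) (A : ℤ).toNat (β : ℤ).toNat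
    (C : ℤ).toNat / Real.pi else 0) = _
  rw [if_pos ⟨rfl, rfl⟩, Int.toNat_natCast, Int.toNat_natCast, Int.toNat_natCast]

lemma wt_ne {N : ℕ} {σ : Bool} {m : ℕ} {y : Fin 6 → ℤ} (h : (tw N σ m).wt y ≠ 0) :
    y 4 = 0 ∧ y 5 = 0 := by
  by_contra h0
  exact h (if_neg h0)

lemma norm_Kg (N : ℕ) (s : ℤ) : ‖Kg N s‖ = 1 := by
  unfold Kg
  split_ifs <;> exact Pool.Agent.Q191.TW.cs_norm _ _

/-- **TO** -/
theorem task_TO : S_TO := by
  intro hF2 N hN σ m
  refine ⟨?_, ?_, ?_⟩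
  · change ‖Kg N (sg σ) ^ m * (-1) ^ (N - 1)‖ = 1
    rw [norm_mul, norm_pow, norm_pow, norm_Kg, norm_neg, norm_one, one_pow, one_pow, one_mul]
  · intro p n hp
    exact Pool.Agent.Q191.TB.Gd_twist hp m σ
  · intro p L M i j hL l hl
    obtain ⟨l', a, b, r, rfl, hl', hr⟩ : ∃ (l' : List (Fin N)) (a b : Fin N) (r : List (Fin N)),
        l = l' ++ a :: b :: r ∧ l'.length = L.length ∧ r.length = M.length := by
      simp only [List.length_append, List.length_cons] at hl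
      have h1 : (l.drop L.length).length = M.length + 1 + 1 := by
        rw [List.length_drop]; omega
      obtain ⟨a, r1, h2⟩ := List.exists_cons_of_length_eq_add_one h1
      rw [h2, List.length_cons] at h1
      obtain ⟨b, r, h3⟩ := List.exists_cons_of_length_eq_add_one (Nat.succ.inj h1)
      refine ⟨l.take L.length, a, b, r, ?_, ?_, ?_⟩
      · rw [← h3, ← h2, List.take_append_drop]
      · rw [List.length_take]; omega
      · rw [h3, List.length_cons] at h1; omega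
    have hrun : run N (rt N) ((tw N σ m).D p) (UU N (L ++ i :: j :: M)) (l' ++ a :: b :: r) =
        ∑ q : Fin N × Fin N, (cx σ N (rt N) ^ m) (a, b) q *
          UU N (L ++ i :: j :: M) (l' ++ q.1 :: q.2 :: r) := by
      change run N (rt N) [Piece.twist p σ m] _ _ = _
      rw [Pool.Agent.Q191.SH.act_tw, Pool.Agent.Q191.FT.op_app _ _ _ _ _ _ (hl'.trans hL)]
    rw [hrun]
    simp only [UU_two _ _ _ _ _ _ _ _ hl']
    obtain ⟨T, hT⟩ : ∃ T, T = nu N (L.sum + M.sum) *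
        (uu N 0 L l' * uu N (L.length + 1 + 1) M r) := ⟨_, rfl⟩
    rw [← hT]
    have h1 : ∀ q : Fin N × Fin N, (cx σ N (rt N) ^ m) (a, b) q * (T *
        cs N (-(((N : ℝ) - 1) * L.length * ((q.1 : ℕ) + (q.2 : ℕ)))) *
          (nu N (i + j) * (ph N 0 i (q.1 : ℕ) * ph N 1 j (q.2 : ℕ)))) =
        (T * cs N (-(((N : ℝ) - 1) * L.length * ((a : ℕ) + (b : ℕ))))) *
          ((cx σ N (rt N) ^ m) (a, b) q * (nu N (i + j) * (ph N 0 i (q.1 : ℕ) *
            ph N 1 j (q.2 : ℕ)))) := by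
      intro q
      by_cases h2 : (cx σ N (rt N) ^ m) (a, b) q = 0
      · rw [h2]; ring
      · have hW : Pool.Agent.Q191.TW.Wp (cx σ N (rt N) ^ m) :=
          Pool.Agent.Q191.TB.Wp_pow (Pool.Agent.Q191.TB.Wp_crs σ) m
        have h3 := hW (a, b) q h2
        have h4 : ((a : ℕ) : ℝ) + ((b : ℕ) : ℝ) = (q.1 : ℕ) + (q.2 : ℕ) := by exact_mod_cast h3
        rw [h4]
        ring
    rw [Finset.sum_congr rfl fun q _ => h1 q, ← Finset.mul_sum]
    have h2 : ∑ q : Fin N × Fin N, (cx σ N (rt N) ^ m) (a, b) q * (nu N (i + j) *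
        (ph N 0 i (q.1 : ℕ) * ph N 1 j (q.2 : ℕ))) =
        ((cx σ N (rt N) ^ m) *ᵥ Uv N i j) (a, b) := rfl
    rw [h2, hF2 N hN σ m i j]
    -- the right side
    obtain ⟨S, hS⟩ : ∃ S, S = T * cs N (-(((N : ℝ) - 1) * L.length * ((a : ℕ) + (b : ℕ)))) :=
      ⟨_, rfl⟩
    rw [← hS]
    have hmod0 : 0 ≤ (j - i - 1) % (N : ℤ) := Int.emod_nonneg _ (by exact_mod_cast hN.ne')
    have hmod1 : (j - i - 1) % (N : ℤ) < N := Int.emod_lt_of_pos _ (by exact_mod_cast hN)
    have hA : ((aA N i j : ℕ) : ℤ) = (j - i - 1) % N := Int.toNat_of_nonneg hmod0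
    have hAN : aA N i j < N := by
      have : ((aA N i j : ℕ) : ℤ) < N := by rw [hA]; exact hmod1
      exact_mod_cast this
    have hQ := sum_six hN (fun y => if y 0 = (j - i - 1) % N ∧ n1 y + n2 y = N - 1 then
        (tw N σ m).wt y * (S * (nu N ((i - cor y 3) + (j + cor y 1)) *
          (ph N 0 (i - cor y 3) (a : ℕ) * ph N 1 (j + cor y 1) (b : ℕ)))) else 0) (by
      intro y hy
      by_cases hc : y 0 = (j - i - 1) % N ∧ n1 y + n2 y = N - 1
      · simp only [if_pos hc] at hy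
        have h4 := wt_ne (left_ne_zero_of_mul hy)
        exact ⟨h4.1, h4.2, hc.2⟩
      · simp only [if_neg hc] at hy
        exact absurd rfl hy)
    have hR : ∑ x : Fin 6 → Fin N, (if ((x 0 : ℕ) : ℤ) = (j - i - 1) % N ∧
          n1 (zz x) + n2 (zz x) = N - 1 then
        (tw N σ m).wt (zz x) * (S * (nu N ((i - cor (zz x) 3) + (j + cor (zz x) 1)) *
          (ph N 0 (i - cor (zz x) 3) (a : ℕ) * ph N 1 (j + cor (zz x) 1) (b : ℕ)))) else 0) =
        ∑ β ∈ range N, ∑ C ∈ range N, if aA N i j + β + C < N then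
          Fk N (sg σ * m) (aA N i j) β C / Real.pi *
            (S * (nu N ((i - (N - 1 - aA N i j - β - C)) + (j + β)) *
              (ph N 0 (i - (N - 1 - aA N i j - β - C)) (a : ℕ) * ph N 1 (j + β) (b : ℕ)))) else 0 := by
      refine Eq.trans (Finset.sum_congr rfl fun x _ => rfl) (hQ.trans ?_)
      rw [Finset.sum_eq_single (aA N i j)]
      · refine Finset.sum_congr rfl fun β _ => Finset.sum_congr rfl fun C _ => ?_
        by_cases hc : aA N i j + β + C < N
        · rw [if_pos hc, if_pos hc]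
          have hc2 : (![((aA N i j : ℕ) : ℤ), β, (N : ℤ) - 1 - aA N i j - β - C, C, 0, 0] :
              Fin 6 → ℤ) 0 = (j - i - 1) % N := hA
          simp only [cor_vec, wt_vec]
          rw [if_pos ⟨hc2, n12 _ _ _⟩]
          rfl
        · rw [if_neg hc, if_neg hc]
      · intro A _ hne
        refine Finset.sum_eq_zero fun β _ => Finset.sum_eq_zero fun C _ => ?_
        by_cases hc : A + β + C < N
        · rw [if_pos hc]
          refine if_neg ?_
          rintro ⟨hc2, -⟩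
          have hc3 : (A : ℤ) = (j - i - 1) % N := hc2
          rw [← hA] at hc3
          exact hne (by exact_mod_cast hc3)
        · rw [if_neg hc]
      · intro h0
        exact absurd (Finset.mem_range.mpr hAN) h0
    rw [hR]
    have hL2 : ((Kg N (sg σ) ^ m * (-1) ^ (N - 1) * (N / Real.pi)) •
        ∑ β ∈ range N, ∑ C ∈ range N, if aA N i j + β + C < N then
          Fk N (sg σ * m) (aA N i j) β C • Uv N (i - (N - 1 - aA N i j - β - C)) (j + β)
            else 0 : Fin N × Fin N → ℂ) (a, b) =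
        (Kg N (sg σ) ^ m * (-1) ^ (N - 1) * (N / Real.pi)) *
        ∑ β ∈ range N, ∑ C ∈ range N, if aA N i j + β + C < N then
          Fk N (sg σ * m) (aA N i j) β C * (nu N ((i - (N - 1 - aA N i j - β - C)) + (j + β)) *
              (ph N 0 (i - (N - 1 - aA N i j - β - C)) (a : ℕ) * ph N 1 (j + β) (b : ℕ))) else 0 := by
      rw [Pi.smul_apply, smul_eq_mul, Finset.sum_apply]
      congr 1
      refine Finset.sum_congr rfl fun β _ => ?_
      rw [Finset.sum_apply]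
      refine Finset.sum_congr rfl fun C _ => ?_
      split_ifs
      · rfl
      · rfl
    rw [hL2]
    have hK : (tw N σ m).K = Kg N (sg σ) ^ m * (-1) ^ (N - 1) := rfl
    rw [hK]
    simp only [Finset.mul_sum]
    refine Finset.sum_congr rfl fun β _ => Finset.sum_congr rfl fun C _ => ?_
    split_ifs
    · ring
    · ring

end Pool.Agent.Q239.KN
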